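import Pool.Agent.H38.Icd.Snd

/-!
Point-line sign patterns as incidence structures: one gadget carries no stress.
-/

namespace Pool.Agent.H38.Icd

open Finset Matrix Pool.Agent.H38.NP Pool.Agent.H38.ER Pool.Agent.Lead.SR Filter

theorem sum3 {l : ℕ → ℝ} {L : ℕ → V} {N : ℕ} (a b c : ℕ) (e : ∑ i ∈ range N, l i • L i = 0)
    (h : (a ≠ b ∧ a ≠ c ∧ b ≠ c) ∧ a < N ∧ b < N ∧ c < N) (k : ∀ i, l i ≠ 0 → i = a ∨ i = b ∨ i = c) :
    l a • L a + l b • L b + l c • L c = 0 := by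
  rw [sumL _ [a, b, c] (by simp [h]) (by simp [h]) fun i hi => by
    simpa using k i (left_ne_zero_of_smul hi)] at e
  simpa [add_assoc] using e

theorem blk {l : ℕ → ℕ → ℝ} {P L : ℕ → V} {M N p j B C : ℕ} {σ : Bool} {X y Q A b s : ℝ}
    (hp : 6 ≤ p ∧ p < B ∧ B + 5 < M ∧ 4 ≤ j ∧ j < C ∧ C + 5 < N) (hX : X ≠ 0) (hs : s ≠ 0)
    (sP : ∀ u w, B ≤ u → u < B + 6 → l u w ≠ 0 → (u, w) ∈ gad p j B C σ)
    (sL : ∀ u w, C ≤ w → w < C + 6 → l u w ≠ 0 → (u, w) ∈ gad p j B C σ)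
    (eP : ∀ u < M, ∑ w ∈ range N, l u w • L w = 0) (eL : ∀ w < N, ∑ u ∈ range M, l u w • P u = 0)
    (hP : P 0 = ![0, 0, 1] ∧ P 1 = ![0, 1, 0] ∧ P 4 = ![1, 0, 1] ∧ P 5 = ![1, -1, 0] ∧
      P p = ![X, y, 1] ∧ P B = ![X, Q, 1] ∧ P (B + 1) = ![X, cond σ Q y, 0] ∧
      P (B + 2) = ![0, s ^ 2, 1] ∧ P (B + 3) = ![0, s, 1] ∧ P (B + 4) = ![s, 0, 1] ∧
      P (B + 5) = ![1, -s, 0])
    (hL : L 0 = ![1, 0, 0] ∧ L 1 = ![0, 1, 0] ∧ L 2 = ![0, 0, 1] ∧ L j = ![A, -1, b] ∧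
      L C = ![1, 0, -X] ∧ L (C + 1) = ![cond σ Q y, -X, 0] ∧
      L (C + 2) = ![cond σ Q y, -X, X * s ^ 2] ∧ L (C + 3) = ![1, 1, -s] ∧ L (C + 4) = ![s, 1, -s] ∧
      L (C + 5) = ![s, 1, -s ^ 2]) : ∀ e ∈ gad p j B C σ, l e.1 e.2 = 0 := by
  simp only [gad, List.mem_cons, Prod.mk.injEq, List.not_mem_nil, or_false] at sP sL
  have hb : (cond σ B p = B ∧ cond σ p B = p ∧ cond σ (C + 1) (C + 2) = C + 1) ∨
      (cond σ B p = p ∧ cond σ p B = B ∧ cond σ (C + 1) (C + 2) = C + 2) := by cases σ <;> simp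
  have pe := fun u a b c (h : B ≤ u ∧ u < B + 6) h1
    (h2 : ∀ w, _ → w = a ∨ w = b ∨ w = c) =>
      sum3 a b c (eP u (by omega)) h1 fun w k => h2 w (sP u w h.1 h.2 k)
  have le := fun w a b c (h : C ≤ w ∧ w < C + 6) h1
    (h2 : ∀ u, _ → u = a ∨ u = b ∨ u = c) =>
      sum3 (l := fun u => l u w) a b c (eL w (by omega)) h1 fun u k => h2 u (sL u w h.1 h.2 k)
  have p0 := pe B C j (cond σ (C + 1) (C + 2)) (by omega) (by omega) fun _ => by omega
  have p1 := pe (B + 1) (C + 1) 2 (C + 2) (by omega) (by omega) fun _ => by omega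
  have p2 := pe (B + 2) (C + 2) 0 (C + 5) (by omega) (by omega) fun _ => by omega
  have p3 := pe (B + 3) 0 (C + 3) (C + 4) (by omega) (by omega) fun _ => by omega
  have p4 := pe (B + 4) 1 (C + 3) (C + 5) (by omega) (by omega) fun _ => by omega
  have p5 := pe (B + 5) 2 (C + 4) (C + 5) (by omega) (by omega) fun _ => by omega
  have l0 := le C p 1 B (by omega) (by omega) fun _ => by omega
  have l1 := le (C + 1) 0 (cond σ B p) (B + 1) (by omega) (by omega) fun _ => by omega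
  have l2 := le (C + 2) (cond σ p B) (B + 1) (B + 2) (by omega) (by omega) fun _ => by omega
  have l3 := le (C + 3) (B + 3) (B + 4) 5 (by omega) (by omega) fun _ => by omega
  have l4 := le (C + 4) (B + 3) 4 (B + 5) (by omega) (by omega) fun _ => by omega
  have l5 := le (C + 5) (B + 2) (B + 4) (B + 5) (by omega) (by omega) fun _ => by omega
  clear pe le sP sL eP eL hb
  simp only [gad, List.forall_mem_cons, List.not_mem_nil, false_imp_iff, implies_true, and_true]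
  cases σ <;> simp only [cond_true, cond_false, v3, hP, hL, Pi.add_apply, Pi.smul_apply, smul_eq_mul,
    Matrix.cons_val_zero, Matrix.cons_val_one, Matrix.cons_val, Pi.zero_apply, mul_zero, mul_one,
    add_zero, zero_add, mul_neg] at p0 p1 p2 p3 p4 p5 l0 l1 l2 l3 l4 l5 ⊢ <;>
  clear hP hL <;>
  · have a1 : l (B + 4) (C + 5) = 0 := mul_left_cancel₀ (mul_ne_zero hs (mul_ne_zero two_ne_zero hs)) (by
      linear_combination s * l5.1 - s * p5.2.1 - l4.2.1 + s * p3.2.1 - s * l3.2.2 + s * p4.1)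
    have a2 : l (B + 5) (C + 5) = 0 := by simpa [a1] using l5.1
    have a3 : l (B + 2) (C + 5) = 0 := by simpa [a1] using l5.2.2
    have a4 : l (B + 4) (C + 3) = 0 := by simpa [a1] using p4.1
    have a5 : l (B + 3) (C + 3) = 0 := by simpa [a4] using l3.2.2
    have a6 : l (B + 3) (C + 4) = 0 := by simpa [a5] using p3.2.1
    have a7 : l (B + 5) (C + 4) = 0 := by simpa [a2] using p5.2.1
    have a8 : l (B + 2) (C + 2) = 0 := by simpa [a3, hX] using p2.2.1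
    simp [a1, a2, a3, a4, a5, a6, a7, a8] at *
    grind

end Pool.Agent.H38.Icd
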