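import Pool.Agent.H38.Icd.Blk

/-!
Point-line sign patterns as incidence structures: completeness.
-/

namespace Pool.Agent.H38.Icd

open Finset Matrix Pool.Agent.H38.NP Pool.Agent.H38.ER Pool.Agent.Lead.SR Filter

theorem base_c {m n E} (h : Strong 1 (m, n, E)) : ∃ P L, Rz (base (m, n, E)) P L ∧
    NoS (base (m, n, E)) P L ∧ Li P (tP (m, n, E)) ∧ Li L (tL (m, n, E)) ∧
    (P 0 = ![0, 0, 1] ∧ P 1 = ![0, 1, 0] ∧ P 2 = ![1, 0, 0]) ∧
    L 0 = ![1, 0, 0] ∧ L 1 = ![0, 1, 0] ∧ L 2 = ![0, 0, 1] := by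
  obtain ⟨x, a, y, b, hx, h⟩ : ∃ x a y b : ℕ → ℝ, (∀ i < m, x i ≠ 0) ∧
      ∀ i < m, ∀ j < n, 0 < sg (ent E i j) * (y i - (a j * x i + b j)) := by
    obtain ⟨x, a, y, b, h⟩ := h
    obtain ⟨c, hc⟩ := (ev_lt (m := m) fun i _ => eventually_cofinite_ne (x i 0)).exists
    refine ⟨fun i => x i 0 - c, fun j => a j 0, y, fun j => b j + a j 0 * c,
      fun i hi => sub_ne_zero.2 (hc i hi).symm, fun i hi j hj => ?_⟩
    have := h i hi j hj
    simp only [dotProduct, Fin.sum_univ_one] at this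
    linarith
  obtain ⟨Q, hQ⟩ : ∃ Q : ℕ → ℝ, ∀ t, Q t = a (t % n) * x (t / n) + b (t % n) := ⟨_, fun _ => rfl⟩
  obtain ⟨s, hs⟩ : ∃ s : ℕ → ℝ, ∀ t < m * n, s t ≠ 0 ∧
      s t ^ 2 = sg (ent E (t / n) (t % n)) * (y (t / n) - Q t) :=
    ⟨fun t => √(sg (ent E (t / n) (t % n)) * (y (t / n) - Q t)), fun t ht =>
      have := hQ t ▸ h _ (dm ht).1 _ (dm ht).2
      ⟨(Real.sqrt_pos.2 this).ne', Real.sq_sqrt this.le⟩⟩
  let gP : ℕ → List V := fun t => [![x (t / n), Q t, 1],
    ![x (t / n), cond (ent E (t / n) (t % n)) (Q t) (y (t / n)), 0], ![0, s t ^ 2, 1], ![0, s t, 1],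
    ![s t, 0, 1], ![1, -s t, 0]]
  let gL : ℕ → List V := fun t => [![1, 0, -x (t / n)],
    ![cond (ent E (t / n) (t % n)) (Q t) (y (t / n)), -x (t / n), 0],
    ![cond (ent E (t / n) (t % n)) (Q t) (y (t / n)), -x (t / n), x (t / n) * s t ^ 2],
    ![1, 1, -s t], ![s t, 1, -s t], ![s t, 1, -s t ^ 2]]
  obtain ⟨P, p1, p2, p3⟩ : ∃ P : ℕ → V, (∀ k < 6, P k = [![0, 0, 1], ![0, 1, 0], ![1, 0, 0],
      ![0, 1, 1], ![1, 0, 1], ![1, -1, 0]].getD k 0) ∧ (∀ i < m, P (6 + i) = ![x i, y i, 1]) ∧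
      ∀ t, ∀ k < 6, P (6 + m + 6 * t + k) = (gP t).getD k 0 :=
    ⟨fun u => if u < 6 then _ else if u < 6 + m then ![x (u - 6), y (u - 6), 1] else
      (gP ((u - (6 + m)) / 6)).getD ((u - (6 + m)) % 6) 0, fun k hk => if_pos hk,
      fun i hi => by simp [hi], fun t k hk => by
        simp (disch := omega) only [if_neg, show (6 + m + 6 * t + k - (6 + m)) / 6 = t by omega,
          show (6 + m + 6 * t + k - (6 + m)) % 6 = k by omega]⟩
  obtain ⟨L, l1, l2, l3⟩ : ∃ L : ℕ → V, (∀ k < 4, L k = [![1, 0, 0], ![0, 1, 0], ![0, 0, 1],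
      ![1, 1, -1]].getD k 0) ∧ (∀ i < n, L (4 + i) = ![a i, -1, b i]) ∧
      ∀ t, ∀ k < 6, L (4 + n + 6 * t + k) = (gL t).getD k 0 :=
    ⟨fun u => if u < 4 then _ else if u < 4 + n then ![a (u - 4), -1, b (u - 4)] else
      (gL ((u - (4 + n)) / 6)).getD ((u - (4 + n)) % 6) 0, fun k hk => if_pos hk,
      fun i hi => by simp [hi], fun t k hk => by
        simp (disch := omega) only [if_neg, show (4 + n + 6 * t + k - (4 + n)) / 6 = t by omega,
          show (4 + n + 6 * t + k - (4 + n)) % 6 = k by omega]⟩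
  have f0 : P 0 = ![0, 0, 1] ∧ P 1 = ![0, 1, 0] ∧ P 2 = ![1, 0, 0] ∧ P 3 = ![0, 1, 1] ∧
    P 4 = ![1, 0, 1] ∧ P 5 = ![1, -1, 0] := by simp [p1]
  have g0 : L 0 = ![1, 0, 0] ∧ L 1 = ![0, 1, 0] ∧ L 2 = ![0, 0, 1] ∧ L 3 = ![1, 1, -1] := by simp [l1]
  have p4 := fun t => p3 t 0 (by omega)
  have l4 := fun t => l3 t 0 (by omega)
  simp only [add_zero] at p4 l4
  refine ⟨P, L, ⟨fun u hu => ?_, fun u hu => ?_, ?_⟩, fun l sp eP eL => ?_, ?_, ?_, by simp [f0],
    by simp [g0]⟩
  · simp only [base] at hu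
    rcases (by omega : u < 6 ∨ (u - 6 < m ∧ u = 6 + (u - 6)) ∨ ((u - (6 + m)) / 6 < m * n ∧
      u = 6 + m + 6 * ((u - (6 + m)) / 6) + (u - (6 + m)) % 6)) with k | ⟨k, e⟩ | ⟨k, e⟩
    · interval_cases u <;> simp [f0, nz]
    · rw [e, p2 _ k]; simp [nz]
    · have hx' := hx _ (dm k).1
      have := Nat.mod_lt (u - (6 + m)) (show 0 < 6 by omega)
      rw [e, p3 _ _ this]
      generalize (u - (6 + m)) % 6 = r at *
      interval_cases r <;> simp [gP, nz, hx']
  · simp only [base] at hu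
    rcases (by omega : u < 4 ∨ (u - 4 < n ∧ u = 4 + (u - 4)) ∨ ((u - (4 + n)) / 6 < m * n ∧
      u = 4 + n + 6 * ((u - (4 + n)) / 6) + (u - (4 + n)) % 6)) with k | ⟨k, e⟩ | ⟨k, e⟩
    · interval_cases u <;> simp [g0, nz]
    · rw [e, l2 _ k]; simp [nz]
    · have hx' := hx _ (dm k).1
      have := Nat.mod_lt (u - (4 + n)) (show 0 < 6 by omega)
      rw [e, l3 _ _ this]
      generalize (u - (4 + n)) % 6 = r at *
      interval_cases r <;> simp [gL, nz, hx']
  · simp only [base, frame, gad, List.forall_mem_append, List.forall_mem_flatMap,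
      List.forall_mem_cons, List.mem_range, List.not_mem_nil, false_imp_iff, implies_true, and_true,
      d3, f0, g0]
    refine ⟨by simp, fun t ht => ?_⟩
    have := (hs t ht).2
    have := hQ t
    simp only [Bool.apply_cond P, p2 _ (dm ht).1, l2 _ (dm ht).2, p4, l4]
    simp (disch := omega) only [p3, l3]
    simp only [gP, gL]
    generalize ent E (t / n) (t % n) = σ at *
    cases σ <;> simp [sg] at * <;> grind
  · simp only [base, List.mem_append, List.mem_flatMap, List.mem_range] at sp eP eL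
    have rg : ∀ t < m * n, ∀ u w, (u, w) ∈ gad (6 + t / n) (4 + t % n) (6 + m + 6 * t)
        (4 + n + 6 * t) (ent E (t / n) (t % n)) → (u < 6 + m ∨ 6 + m + 6 * t ≤ u ∧
          u < 6 + m + 6 * t + 6) ∧ (w < 4 + n ∨ 4 + n + 6 * t ≤ w ∧ w < 4 + n + 6 * t + 6) := by
      intro t ht u w
      have := dm ht
      generalize t / n = i at *
      generalize t % n = j at *
      cases ent E i j <;> simp only [gad, List.mem_cons, Prod.mk.injEq, List.not_mem_nil, or_false,
        cond_true, cond_false] <;> omega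
    have fr : ∀ u w, (u, w) ∈ frame → u < 6 ∧ w < 4 := fun u w => by
      simp only [frame, List.mem_cons, Prod.mk.injEq, List.not_mem_nil, or_false]; omega
    have z : ∀ t < m * n, ∀ e ∈ gad (6 + t / n) (4 + t % n) (6 + m + 6 * t) (4 + n + 6 * t)
        (ent E (t / n) (t % n)), l e.1 e.2 = 0 := fun t ht => by
      have := Nat.zero_le (t / n)
      have := dm ht
      refine blk (by omega) (hx _ this.1) (hs t ht).1 (fun u w h1 h2 k => ?_) (fun u w h1 h2 k => ?_)
        eP eL ⟨f0.1, f0.2.1, f0.2.2.2.2.1, f0.2.2.2.2.2, p2 _ this.1, p4 t, p3 t 1 (by omega),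
          p3 t 2 (by omega), p3 t 3 (by omega), p3 t 4 (by omega), p3 t 5 (by omega)⟩
        ⟨g0.1, g0.2.1, g0.2.2.1, l2 _ this.2, l4 t, l3 t 1 (by omega), l3 t 2 (by omega),
          l3 t 3 (by omega), l3 t 4 (by omega), l3 t 5 (by omega)⟩ <;>
      rcases sp u w k with e | ⟨t', ht', e⟩
      · have := fr _ _ e; omega
      · obtain rfl : t' = t := by have := rg _ ht' _ _ e; omega
        exact e
      · have := fr _ _ e; omega
      · obtain rfl : t' = t := by have := rg _ ht' _ _ e; omega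
        exact e
    have sf : ∀ u w, l u w ≠ 0 → (u, w) ∈ frame := fun u w k =>
      (sp u w k).resolve_right fun ⟨t, ht, e⟩ => k (z t ht _ e)
    have pe := fun u a b (h : u < 6 ∧ a ≠ b ∧ a < 4 ∧ b < 4) (c : L a ⨯₃ L b ≠ 0)
      (h2 : ∀ w, (u, w) ∈ frame → w = a ∨ w = b) => two c ((sum2 (fun w => l u w • L w) h.2.1
        (by omega) (by omega) fun w k => h2 w (sf u w (left_ne_zero_of_smul k))).symm.trans
          (eP u (by omega)))
    have q0 := pe 0 0 1 (by omega) (by simp [cz, g0]) (by simp [frame])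
    have q1 := pe 1 0 2 (by omega) (by simp [cz, g0]) (by simp [frame])
    have q2 := pe 2 1 2 (by omega) (by simp [cz, g0]) (by simp [frame])
    have q3 := pe 3 0 3 (by omega) (by simp [cz, g0]) (by simp [frame])
    have q4 := pe 4 1 3 (by omega) (by simp [cz, g0]) (by simp [frame])
    have q5 := pe 5 2 3 (by omega) (by simp [cz, g0]) (by simp [frame])
    intro u w
    by_contra k
    have := sf u w k
    simp only [frame, List.mem_cons, Prod.mk.injEq, List.not_mem_nil, or_false] at this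
    rcases this with h | h | h | h | h | h | h | h | h | h | h | h <;>
      simp [h, q0, q1, q2, q3, q4, q5] at k
  · simp only [Li, tP, List.forall_mem_append, List.forall_mem_flatMap, List.forall_mem_cons,
      List.mem_range, List.not_mem_nil, false_imp_iff, implies_true, and_true, cz, f0]
    refine ⟨by simp, fun t ht => ?_⟩
    simp [p2 _ (dm ht).1, p4, p3 t 2, gP, (hs t ht).1]
  · simp only [Li, tL, List.forall_mem_append, List.forall_mem_flatMap, List.forall_mem_cons,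
      List.mem_range, List.not_mem_nil, false_imp_iff, implies_true, and_true, cz, g0]
    refine ⟨by simp, fun t ht => ?_⟩
    simp [l2 _ (dm ht).2, l4, gL, hx _ (dm ht).1]

theorem icd_erh : ERH InRange Indep := by
  refine sr1_erh.reduce (fun p => ext (base p) (tP p) (tL p))
    (by unfold ext base tP tL gad frame; fun_prop) ?_
  rintro ⟨m, n, E⟩ -
  obtain ⟨b1, b2, b3⟩ := base_ok (m := m) (n := n) (E := E)
  have g := ext_rg b1 b2 b3
  refine ⟨g, fun h => ?_, fun h => ?_⟩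
  · obtain ⟨P, L, r, s, lp, ll, f, f'⟩ := base_c h
    obtain ⟨P', L', e1, e2, r', s'⟩ := ext_c b1 b2 b3 r s lp ll
    refine ind_c g r' s' (fun z k => ?_) fun z k => ?_
    · have k0 := k 0 (by simp only [ext, base]; omega)
      have k1 := k 1 (by simp only [ext, base]; omega)
      have k2 := k 2 (by simp only [ext, base]; omega)
      rw [e1 _ (by simp only [base]; omega), d3] at k0 k1 k2
      simp_all [v3]
    · have k0 := k 0 (by simp only [ext, base]; omega)
      have k1 := k 1 (by simp only [ext, base]; omega)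
      have k2 := k 2 (by simp only [ext, base]; omega)
      rw [e2 _ (by simp only [base]; omega), d3] at k0 k1 k2
      simp_all [v3]
  · obtain ⟨P, L, r, s⟩ := ind_s g h
    obtain ⟨r', lp, ll⟩ := ext_s b2 b3 r s
    exact base_s r' lp ll

end Pool.Agent.H38.Icd
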