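import Pool.Agent.H38.ER.Defs

/-!
Independence of plane point-line incidence structures.
-/

namespace Pool.Agent.H38.Icd

/-- `(m, n, I)`: points `0, …, m - 1`, lines `0, …, n - 1`, and a list `I` of incidences. -/
def InRange (p : ℕ × ℕ × List (ℕ × ℕ)) : Prop := ∀ e ∈ p.2.2, e.1 < p.1 ∧ e.2 < p.2.1

/-- The row of the incidence `e = (i, j)`: the coefficients of `A^j u_i + U^j x_i + w_i + W^j`.
The columns `inl (i, true)`, `inl (i, false)`, `inr (j, true)`, `inr (j, false)` belong to the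
unknowns `u_i`, `w_i`, `U^j`, `W^j`. -/
def row (m n : ℕ) (x A : ℕ → ℝ) (e : ℕ × ℕ) : (Fin m × Bool) ⊕ (Fin n × Bool) → ℝ
  | .inl (i, b) => if (i : ℕ) = e.1 then cond b (A e.2) 1 else 0
  | .inr (j, b) => if (j : ℕ) = e.2 then cond b (x e.1) 1 else 0

/-- There are points `(x i, y i)` and lines `A j * x + y + C j = 0` that satisfy all incidences, with
the points not all collinear and the lines not all concurrent, at which the rows of the incidences
are linearly independent. -/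
def Indep (p : ℕ × ℕ × List (ℕ × ℕ)) : Prop := ∃ x y A C : ℕ → ℝ,
  (∀ e ∈ p.2.2, A e.2 * x e.1 + y e.1 + C e.2 = 0) ∧
  (¬ ∃ a b c : ℝ, (a ≠ 0 ∨ b ≠ 0) ∧ ∀ i < p.1, a * x i + b * y i + c = 0) ∧
  (¬ ∃ s t : ℝ, ∀ j < p.2.1, A j * s + t + C j = 0) ∧
  LinearIndependent ℝ fun e : {e // e ∈ p.2.2} => row p.1 p.2.1 x A e

end Pool.Agent.H38.Icd
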