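import Pool.Agent.H38.Icd.Defs
import Pool.Agent.H38.ER.Strong3

/-!
Independence in homogeneous coordinates.
-/

namespace Pool.Agent.H38.Icd

open Finset Matrix Filter

abbrev V := Fin 3 → ℝ

abbrev St := ℕ × ℕ × List (ℕ × ℕ)

theorem bridge {m n : ℕ} {I : List (ℕ × ℕ)} (h : InRange (m, n, I)) (x A : ℕ → ℝ) :
    (LinearIndependent ℝ fun e : {e // e ∈ I} => row m n x A e) ↔ ∀ l : ℕ → ℕ → ℝ,
      (∀ i j, l i j ≠ 0 → (i, j) ∈ I) →
      (∀ i < m, ∑ j ∈ range n, l i j * A j = 0 ∧ ∑ j ∈ range n, l i j = 0) →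
      (∀ j < n, ∑ i ∈ range m, l i j * x i = 0 ∧ ∑ i ∈ range m, l i j = 0) → ∀ i j, l i j = 0 := by
  classical
  have key : ∀ l : ℕ → ℕ → ℝ, (∀ i j, l i j ≠ 0 → (i, j) ∈ I) →
      (∑ e : {e // e ∈ I}, l e.1.1 e.1.2 • row m n x A e = 0 ↔
      (∀ i < m, ∑ j ∈ range n, l i j * A j = 0 ∧ ∑ j ∈ range n, l i j = 0) ∧
      ∀ j < n, ∑ i ∈ range m, l i j * x i = 0 ∧ ∑ i ∈ range m, l i j = 0) := fun l hl => by
    have : ∑ e : {e // e ∈ I}, l e.1.1 e.1.2 • row m n x A e =
        ∑ i ∈ range m, ∑ j ∈ range n, l i j • row m n x A (i, j) := by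
      rw [← sum_product', ← sum_subtype I.toFinset (by simp) fun e => l e.1 e.2 • row m n x A e]
      refine sum_subset (fun e he => by simpa using h e (by simpa using he)) fun e _ he => ?_
      rw [of_not_not (mt (hl e.1 e.2) (by simpa using he)), zero_smul]
    rw [this, funext_iff]
    simp only [Sum.forall, Prod.forall, Bool.forall_bool, Finset.sum_apply, Pi.smul_apply, row, smul_eq_mul,
      mul_ite, mul_zero, cond_true, cond_false, mul_one, Pi.zero_apply, sum_ite_irrel,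
      sum_const_zero, sum_ite_eq, mem_range, Fin.is_lt, if_true, Fin.forall_iff]
    simp only [and_comm]
  rw [Fintype.linearIndependent_iff]
  refine ⟨fun H l hl h1 h2 i j => by_contra fun k =>
    k (H (fun e => l e.1.1 e.1.2) ((key l hl).2 ⟨h1, h2⟩) ⟨_, hl i j k⟩), fun H g hg e => ?_⟩
  have s : ∀ i j, (if h : (i, j) ∈ I then g ⟨_, h⟩ else 0) ≠ 0 → (i, j) ∈ I := fun i j k => by
    by_contra h; simp [h] at k
  obtain ⟨h1, h2⟩ := (key _ s).1 (by simpa [Subtype.prop] using hg)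
  simpa [e.2] using H _ s h1 h2 e.1.1 e.1.2

def Rz (p : St) (P L : ℕ → V) : Prop :=
  (∀ i < p.1, P i ≠ 0) ∧ (∀ j < p.2.1, L j ≠ 0) ∧ ∀ e ∈ p.2.2, P e.1 ⬝ᵥ L e.2 = 0

def NoS (p : St) (P L : ℕ → V) : Prop := ∀ l : ℕ → ℕ → ℝ, (∀ i j, l i j ≠ 0 → (i, j) ∈ p.2.2) →
  (∀ i < p.1, ∑ j ∈ range p.2.1, l i j • L j = 0) →
  (∀ j < p.2.1, ∑ i ∈ range p.1, l i j • P i = 0) → ∀ i j, l i j = 0

theorem v3 {a b : V} : a = b ↔ a 0 = b 0 ∧ a 1 = b 1 ∧ a 2 = b 2 := by
  simp [funext_iff, Fin.forall_fin_succ]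

theorem d3 (a b : V) : a ⬝ᵥ b = a 0 * b 0 + a 1 * b 1 + a 2 * b 2 := by
  simp [dotProduct, Fin.sum_univ_three]

theorem ind_s {p : St} (h : InRange p) (k : Indep p) : ∃ P L, Rz p P L ∧ NoS p P L := by
  obtain ⟨m, n, I⟩ := p
  obtain ⟨x, y, A, C, h1, -, -, h2⟩ := k
  refine ⟨fun i => ![x i, y i, 1], fun j => ![A j, 1, C j], ⟨fun i _ => by simp [v3],
    fun j _ => by simp [v3], fun e he => by rw [d3]; simpa [mul_comm] using h1 e he⟩,
    fun l hl a b => (bridge h x A).1 h2 l hl (fun i hi => ?_) fun j hj => ?_⟩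
  · have := v3.1 (a i hi); simp only [Finset.sum_apply] at this; exact ⟨by simpa using this.1, by
      simpa using this.2.1⟩
  · have := v3.1 (b j hj); simp only [Finset.sum_apply] at this; exact ⟨by simpa using this.1, by
      simpa using this.2.2⟩

theorem quad_ev {a b c : ℝ} (h : ¬ (a = 0 ∧ b = 0 ∧ c = 0)) :
    ∀ᶠ t : ℝ in cofinite, a + b * t + c * t ^ 2 ≠ 0 := by
  have : (Polynomial.monomial 0 a + Polynomial.monomial 1 b + Polynomial.monomial 2 c :
      Polynomial ℝ) ≠ 0 := fun e => h (by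
    have k := fun n => congrArg (Polynomial.coeff · n) e
    simp only [Polynomial.coeff_add, Polynomial.coeff_monomial] at k
    exact ⟨by simpa using k 0, by simpa using k 1, by simpa using k 2⟩)
  exact (Polynomial.finite_setOfPred_isRoot this).subset fun t ht => by simpa using ht

theorem ind_c {p : St} (h : InRange p) {P L} (r : Rz p P L) (s : NoS p P L)
    (n1 : ∀ z : V, (∀ i < p.1, P i ⬝ᵥ z = 0) → z = 0)
    (n2 : ∀ z : V, (∀ j < p.2.1, z ⬝ᵥ L j = 0) → z = 0) : Indep p := by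
  obtain ⟨m, n, I⟩ := p
  obtain ⟨r1, r2, r3⟩ := r
  simp only [NoS, d3] at *
  obtain ⟨t, h1, h2⟩ := ((ER.ev_lt fun i hi => quad_ev (a := P i 2) (b := -2 * P i 1) (c := P i 0)
    fun k => r1 i hi (v3.2 (by simp at k; simp [k]))).and
      (ER.ev_lt fun j hj => quad_ev fun k => r2 j hj (v3.2 k))).exists
  obtain ⟨z, hz⟩ : ∃ z : ℕ → ℝ, ∀ i, z i = P i 2 + -2 * P i 1 * t + P i 0 * t ^ 2 := ⟨_, fun _ => rfl⟩
  obtain ⟨B, hB⟩ : ∃ B : ℕ → ℝ, ∀ j, B j = L j 0 + L j 1 * t + L j 2 * t ^ 2 := ⟨_, fun _ => rfl⟩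
  simp only [← hz, ← hB] at h1 h2
  have inc : ∀ e ∈ I, (L e.2 1 + 2 * t * L e.2 2) / B e.2 * ((P e.1 1 - t * P e.1 0) / z e.1) +
      P e.1 0 / z e.1 + L e.2 2 / B e.2 = 0 := fun e he => by
    have := h1 _ (h e he).1; have := h2 _ (h e he).2
    field_simp; rw [hz, hB]; linear_combination r3 e he
  refine ⟨fun i => (P i 1 - t * P i 0) / z i, fun i => P i 0 / z i,
    fun j => (L j 1 + 2 * t * L j 2) / B j, fun j => L j 2 / B j, inc, ?_, ?_,
    (bridge h _ _).2 fun l hl a b i j => ?_⟩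
  · rintro ⟨a, b, c, k, e⟩
    have := v3.1 (n1 ![b - a * t + c * t ^ 2, a - 2 * c * t, c] fun i hi => by
      have k := e i hi; have := h1 i hi
      field_simp at k; rw [hz] at k; simp; linear_combination k)
    simp at this; grind
  · rintro ⟨a, b, e⟩
    have := v3.1 (n2 ![b, a + b * t, 1 + 2 * t * a + b * t ^ 2] fun j hj => by
      have k := e j hj; have := h2 j hj
      field_simp at k; rw [hB] at k; simp; linear_combination k)
    simp at this; grind
  by_contra k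
  have c : ∀ i j, l i j * ((L j 1 + 2 * t * L j 2) / B j * ((P i 1 - t * P i 0) / z i) +
      P i 0 / z i + L j 2 / B j) = 0 := fun i j => by
    by_cases e : l i j = 0
    · simp [e]
    · rw [inc _ (hl i j e), mul_zero]
  have := s (fun i j => l i j / (z i * B j)) (fun i j e => hl i j fun k => e (by simp [k]))
    (fun i hi => ?_) (fun j hj => ?_) i j
  · simp [k, h1 _ (h _ (hl i j k)).1, h2 _ (h _ (hl i j k)).2] at this
  · obtain ⟨a1, a2⟩ := a i hi
    have a3 : ∑ j ∈ range n, l i j * (L j 2 / B j) = 0 := by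
      have := sum_eq_zero (s := range n) fun j _ => c i j
      simp only [mul_add, sum_add_distrib, ← mul_assoc, ← sum_mul, a1, a2] at this
      simpa using this
    have : ∀ j ∈ range n, (l i j / (z i * B j)) • L j = (l i j * (L j 2 / B j)) • (z i)⁻¹ •
        (![t ^ 2, -2 * t, 1] : V) + (l i j * ((L j 1 + 2 * t * L j 2) / B j)) • (z i)⁻¹ •
        (![-t, 1, 0] : V) + l i j • (z i)⁻¹ • (![1, 0, 0] : V) := fun j hj => by
      have := h2 j (mem_range.1 hj); have := h1 i hi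
      rw [v3]; simp; field_simp; rw [hB]; simp; exact .inl (by ring)
    rw [sum_congr rfl this]
    simp only [sum_add_distrib, ← sum_smul, a1, a2, a3, zero_smul, add_zero]
  · obtain ⟨a1, a2⟩ := b j hj
    have a3 : ∑ i ∈ range m, l i j * (P i 0 / z i) = 0 := by
      have := sum_eq_zero (s := range m) fun i _ => c i j
      simp only [mul_add, sum_add_distrib, mul_left_comm (l _ j), ← mul_sum, ← sum_mul, a1, a2] at this
      simpa using this
    have : ∀ i ∈ range m, (l i j / (z i * B j)) • P i = (l i j * (P i 0 / z i)) • (B j)⁻¹ •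
        (![1, t, t ^ 2] : V) + (l i j * ((P i 1 - t * P i 0) / z i)) • (B j)⁻¹ •
        (![0, 1, 2 * t] : V) + l i j • (B j)⁻¹ • (![0, 0, 1] : V) := fun i hi => by
      have := h1 i (mem_range.1 hi); have := h2 j hj
      rw [v3]; simp; field_simp; rw [hz]; simp; exact .inl (by ring)
    rw [sum_congr rfl this]
    simp only [sum_add_distrib, ← sum_smul, a1, a2, a3, zero_smul, add_zero]

end Pool.Agent.H38.Icd
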