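import Pool.Agent.H38.Icd.Tst
import Pool.Agent.Lead.SR.Conf4

/-!
Point-line sign patterns as incidence structures: soundness.
-/

namespace Pool.Agent.H38.Icd

open Finset Matrix Pool.Agent.H38.NP Pool.Agent.Lead.SR

def gad (p l B C : ℕ) (σ : Bool) : List (ℕ × ℕ) := [(p, C), (1, C), (B, C), (B, l), (0, C + 1),
  (cond σ B p, C + 1), (B + 1, C + 1), (B + 1, 2), (cond σ p B, C + 2), (B + 1, C + 2), (B + 2, C + 2),
  (B + 2, 0), (B + 3, 0), (B + 4, 1), (B + 5, 2), (B + 3, C + 3), (B + 4, C + 3), (5, C + 3),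
  (B + 3, C + 4), (4, C + 4), (B + 5, C + 4), (B + 2, C + 5), (B + 4, C + 5), (B + 5, C + 5)]

def frame : List (ℕ × ℕ) := [(0, 0), (1, 0), (3, 0), (0, 1), (2, 1), (4, 1), (1, 2), (2, 2), (5, 2),
  (3, 3), (4, 3), (5, 3)]

def base (p : St) : St := (6 + p.1 + 6 * (p.1 * p.2.1), 4 + p.2.1 + 6 * (p.1 * p.2.1),
  frame ++ (List.range (p.1 * p.2.1)).flatMap fun t => gad (6 + t / p.2.1) (4 + t % p.2.1)
    (6 + p.1 + 6 * t) (4 + p.2.1 + 6 * t) (ent p.2.2 (t / p.2.1) (t % p.2.1)))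

def tP (p : St) : List (ℕ × ℕ) := [(0, 1), (0, 2), (3, 0), (3, 1), (4, 0), (4, 2)] ++
  (List.range (p.1 * p.2.1)).flatMap fun t =>
    [(6 + t / p.2.1, 1), (6 + p.1 + 6 * t, 1), (6 + p.1 + 6 * t + 2, 0)]

def tL (p : St) : List (ℕ × ℕ) := [(0, 1)] ++ (List.range (p.1 * p.2.1)).flatMap fun t =>
  [(4 + p.2.1 + 6 * t, 2), (4 + t % p.2.1, 4 + p.2.1 + 6 * t), (4 + p.2.1 + 6 * t, 0)]

variable {m n : ℕ} {E : List (ℕ × ℕ)}

theorem dm {t} (h : t < m * n) : t / n < m ∧ t % n < n :=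
  ⟨Nat.div_lt_of_lt_mul (by rwa [mul_comm]), Nat.mod_lt _ (Nat.pos_of_ne_zero (by rintro rfl; omega))⟩

theorem base_ok : InRange (base (m, n, E)) ∧ Ok (base (m, n, E)).1 (tP (m, n, E)) ∧
    Ok (base (m, n, E)).2.1 (tL (m, n, E)) := by
  simp only [InRange, Ok, base, tP, tL, frame, gad, List.forall_mem_append, List.forall_mem_flatMap,
    List.forall_mem_cons, List.mem_range, List.not_mem_nil, false_imp_iff, implies_true, and_true]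
  refine ⟨⟨by omega, fun t ht => ?_⟩, ⟨by omega, fun t ht => ?_⟩, by omega, fun t ht => ?_⟩ <;>
    have := dm ht <;> generalize t / n = i at * <;> generalize t % n = j at *
  · cases ent E i j <;> simp only [cond_true, cond_false] <;> omega
  · omega
  · omega

def dt (a b c : V) : ℝ := a ⬝ᵥ b ⨯₃ c

theorem dt_eq (a b c : V) : dt a b c = a 0 * (b 1 * c 2 - b 2 * c 1) + a 1 * (b 2 * c 0 - b 0 * c 2) +
    a 2 * (b 0 * c 1 - b 1 * c 0) := by rw [dt, d3]; simp [cross_apply]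

theorem nz {a : V} : a ≠ 0 ↔ a 0 ≠ 0 ∨ a 1 ≠ 0 ∨ a 2 ≠ 0 := by rw [Ne, v3]; simp; tauto

theorem cz {a b : V} : a ⨯₃ b ≠ 0 ↔ a 1 * b 2 - a 2 * b 1 ≠ 0 ∨ a 2 * b 0 - a 0 * b 2 ≠ 0 ∨
    a 0 * b 1 - a 1 * b 0 ≠ 0 := by rw [nz]; simp [cross_apply]

theorem col {a b c l : V} (h : l ≠ 0) (ha : a ⬝ᵥ l = 0) (hb : b ⬝ᵥ l = 0) (hc : c ⬝ᵥ l = 0) :
    dt a b c = 0 := by
  rw [dt, triple_product_eq_det]
  exact exists_mulVec_eq_zero_iff.1 ⟨l, h, v3.2 ⟨ha, hb, hc⟩⟩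

theorem norm {p : St} {TP TL : List (ℕ × ℕ)} {P L} (r : Rz p P L) (lp : Li P TP) (ll : Li L TL)
    (d : dt (P 2) (P 1) (P 0) ≠ 0) : ∃ (P' L' : ℕ → V) (δ : ℝ), δ ≠ 0 ∧ Rz p P' L' ∧ Li P' TP ∧
      Li L' TL ∧ P' 0 = ![0, 0, δ] ∧ P' 1 = ![0, δ, 0] ∧ P' 2 = ![δ, 0, 0] := by
  let f : V → V := fun v => ![dt v (P 1) (P 0), dt (P 2) v (P 0), dt (P 2) (P 1) v]
  let g : V → V := fun l => ![P 2 ⬝ᵥ l, P 1 ⬝ᵥ l, P 0 ⬝ᵥ l]
  have fg : ∀ v l, f v ⬝ᵥ g l = dt (P 2) (P 1) (P 0) * (v ⬝ᵥ l) := fun v l => by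
    simp [f, g, d3, dt_eq]; ring
  have f0 : ∀ v, v ≠ 0 → f v ≠ 0 := fun v h e => h (by simpa [e, d] using fg v v)
  have g0 : ∀ v, v ≠ 0 → g v ≠ 0 := fun v h e => h (by simpa [e, d] using fg v v)
  refine ⟨fun i => f (P i), fun j => g (L j), _, d, ⟨fun i hi => f0 _ (r.1 i hi),
    fun i hi => g0 _ (r.2.1 i hi), fun e he => by rw [fg, r.2.2 e he, mul_zero]⟩, fun e he => ?_,
    fun e he => ?_, ?_, ?_, ?_⟩
  · rw [show f (P e.1) ⨯₃ f (P e.2) = dt (P 2) (P 1) (P 0) • g (P e.1 ⨯₃ P e.2) by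
      simp [f, g, v3, d3, dt_eq, cross_apply]; refine ⟨?_, ?_, ?_⟩ <;> ring]
    exact smul_ne_zero d (g0 _ (lp e he))
  · rw [show g (L e.1) ⨯₃ g (L e.2) = f (L e.1 ⨯₃ L e.2) by
      simp [f, g, v3, d3, dt_eq, cross_apply]; refine ⟨?_, ?_, ?_⟩ <;> ring]
    exact f0 _ (ll e he)
  all_goals simp [f, v3, dt_eq]; constructor <;> ring

theorem rep {a b l : V} (h : a ⨯₃ b ≠ 0) (ha : a ⬝ᵥ l = 0) (hb : b ⬝ᵥ l = 0) :
    ∃ κ : ℝ, l = κ • a ⨯₃ b := by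
  have e : l ⨯₃ (a ⨯₃ b) = 0 := by
    rw [cross_cross_eq_smul_sub_smul', dotProduct_comm l b, ha, hb]; simp
  have := mt crossProduct_ne_zero_iff_linearIndependent.2 (not_not.2 e)
  rw [LinearIndependent.pair_iff] at this
  push Not at this
  obtain ⟨s, t, e, k⟩ := this
  have : s ≠ 0 := by rintro rfl; simp [k rfl, h] at e
  exact ⟨-t / s, by rw [← inv_smul_smul₀ this l, eq_neg_of_add_eq_zero_left e]; module⟩

theorem onk {k0 k2 a0 a2 : ℝ} (h0 : k0 ≠ 0) (h2 : k2 ≠ 0) (e : a0 * k0 + a2 * k2 = 0)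
    (h : a0 ≠ 0 ∨ a2 ≠ 0) : a0 ≠ 0 ∧ a2 ≠ 0 := by grind

theorem trs {u0 u1 u2 w0 w1 w2 d0 d1 R1 R2 : ℝ} (e : u0 * w2 = w0 * u2) (a : u0 ≠ 0) (b : u2 ≠ 0)
    (c : w2 ≠ 0) (d : d0 ≠ 0 ∨ d1 ≠ 0) (h1 : u0 * d1 = u1 * d0)
    (h2 : w0 * d1 * R2 - w1 * d0 * R2 + w2 * d0 * R1 = 0) (r : R1 ≠ 0) :
    R2 ≠ 0 ∧ R1 / R2 = w1 / w2 - u1 / u2 := by
  have d : d0 ≠ 0 := by grind
  have r2 : R2 ≠ 0 := by grind
  refine ⟨r2, ?_⟩
  field_simp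
  refine mul_left_cancel₀ (mul_ne_zero a d) ?_
  linear_combination u0 * u2 * h2 - R2 * w0 * u2 * h1 + R2 * u1 * d0 * e

theorem sqr {y1 y2 g0 g2 z0 z1 D0 D1 e1 e2 f0 f2 r1 r2 : ℝ} (y : y1 ≠ 0 ∨ y2 ≠ 0)
    (g : g0 ≠ 0 ∨ g2 ≠ 0) (z : z0 ≠ 0 ∨ z1 ≠ 0) (D : D0 ≠ 0 ∨ D1 ≠ 0) (a1 : e1 ≠ 0) (a2 : e2 ≠ 0)
    (b0 : f0 ≠ 0) (b2 : f2 ≠ 0) (c1 : r1 ≠ 0) (c2 : r2 ≠ 0) (h : e1 * f2 * D0 + e2 * f0 * D1 = 0)
    (h1 : y1 * g2 * D0 + y2 * g0 * D1 = 0) (h2 : y1 * f2 * z0 + y2 * f0 * z1 = 0)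
    (h3 : r1 * g2 * z0 + r2 * g0 * z1 = 0) : 0 < r1 / r2 * (e1 / e2) := by
  obtain ⟨D0', D1'⟩ := onk (mul_ne_zero a1 b2) (mul_ne_zero a2 b0) (by linear_combination h) D
  have y2' : y2 ≠ 0 := by rintro rfl; simp_all
  have y1' : y1 ≠ 0 := by rintro rfl; simp_all
  obtain ⟨z0', -⟩ := onk (mul_ne_zero y1' b2) (mul_ne_zero y2' b0) (by linear_combination h2) z
  obtain ⟨g2', -⟩ := onk (mul_ne_zero y1' D0') (mul_ne_zero y2' D1') (by linear_combination h1) g.symm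
  have : r1 / r2 * (e1 / e2) = (y1 / y2) ^ 2 := by
    field_simp
    refine mul_left_cancel₀ (mul_ne_zero (mul_ne_zero g2' z0') (mul_ne_zero b2 D0')) ?_
    linear_combination y2 ^ 2 * e1 * f2 * D0 * h3 - y2 ^ 2 * r2 * g0 * z1 * h +
      r2 * e2 * f0 * z1 * y2 * h1 - r2 * e2 * y1 * g2 * D0 * h2
  rw [this]; positivity

theorem gad_s {δ : ℝ} {p q d R Y G Z e f D l k : V} {σ : Bool} (hδ : δ ≠ 0) (d0 : d ≠ 0)
    (Y0 : Y ≠ 0) (G0 : G ≠ 0) (Z0 : Z ≠ 0) (D0 : D ≠ 0) (e1 : e 1 ≠ 0) (e2 : e 2 ≠ 0)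
    (f0 : f 0 ≠ 0) (f2 : f 2 ≠ 0) (e0 : e 0 = 0) (f1 : f 1 = 0) (D2 : D 2 = 0) (h : dt e f D = 0)
    (k0 : k 0 ≠ 0) (k1 : k 1 = 0) (k2 : k 2 ≠ 0) (pk : p ⬝ᵥ k = 0) (qk : q ⬝ᵥ k = 0)
    (ql : q ⬝ᵥ l = 0) (pV : p ⨯₃ ![0, δ, 0] ≠ 0) (qV : q ⨯₃ ![0, δ, 0] ≠ 0) (lk : l ⨯₃ k ≠ 0)
    (d2 : d 2 = 0) (r0 : R 0 = 0) (r1 : R 1 ≠ 0) (y0 : Y 0 = 0) (g1 : G 1 = 0) (z2 : Z 2 = 0)
    (c1 : dt ![0, 0, δ] (cond σ q p) d = 0) (c2 : dt (cond σ p q) d R = 0) (c3 : dt Y G D = 0)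
    (c4 : dt Y f Z = 0) (c5 : dt R G Z = 0) :
    0 < sg σ * (p 1 / p 2 * (e 1 / e 2) - -l 0 / l 1 * (e 1 / e 2) * (p 0 / p 2) -
      -l 2 / l 1 * (e 1 / e 2)) := by
  rw [cz] at pV qV lk
  rw [nz] at d0 Y0 G0 Z0 D0
  simp only [dt_eq, d3] at *
  simp [e0, f1, D2, k1, d2, r0, y0, g1, z2, hδ, sub_eq_zero] at *
  obtain ⟨p0, p2⟩ := onk k0 k2 pk pV.symm
  obtain ⟨q0, q2⟩ := onk k0 k2 qk qV.symm
  have pq : q 0 * p 2 = p 0 * q 2 := mul_left_cancel₀ k0 (by linear_combination p 2 * qk - q 2 * pk)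
  have l1 : l 1 ≠ 0 := fun l1 => by
    simp only [l1, not_true, false_and, false_or, or_false] at lk
    exact lk (mul_left_cancel₀ q2 (by linear_combination k 0 * ql - l 0 * qk - k 0 * q 1 * l1))
  obtain ⟨r2, a⟩ : R 2 ≠ 0 ∧ R 1 / R 2 = sg σ * (p 1 / p 2 - q 1 / q 2) := by
    cases σ <;> simp only [cond_true, cond_false, sg] at *
    · simpa using trs pq.symm p0 p2 q2 d0 c1 (by linear_combination c2) r1
    · simpa using trs pq q0 q2 p2 d0 c1 (by linear_combination c2) r1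
  have b := sqr Y0 G0 Z0 D0 e1 e2 f0 f2 r1 r2 (by linear_combination h) (by linear_combination c3)
    (by linear_combination c4) (by linear_combination c5)
  have c : q 1 / q 2 = -l 0 / l 1 * (p 0 / p 2) + -l 2 / l 1 := by
    field_simp; linear_combination p 2 * ql - l 0 * pq
  rw [a, c] at b
  linarith

theorem base_s {P L} (r : Rz (base (m, n, E)) P L) (lp : Li P (tP (m, n, E)))
    (ll : Li L (tL (m, n, E))) : Strong 1 (m, n, E) := by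
  have d : dt (P 2) (P 1) (P 0) ≠ 0 := fun d => by
    have fr := fun e he => r.2.2 e (List.mem_append_left _ he)
    obtain ⟨a, ha⟩ := rep (lp (0, 1) (by simp [tP])) (fr (0, 0) (by simp [frame]))
      (fr (1, 0) (by simp [frame]))
    obtain ⟨b, hb⟩ := rep (lp (0, 2) (by simp [tP])) (fr (0, 1) (by simp [frame]))
      (fr (2, 1) (by simp [frame]))
    refine ll (0, 1) (by simp [tL]) ?_
    simp only at ha hb
    rw [dt_eq] at d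
    simp only [ha, hb, v3, cross_apply, Pi.smul_apply, smul_eq_mul, Matrix.cons_val_zero,
      Matrix.cons_val_one, Matrix.cons_val, Pi.zero_apply]
    exact ⟨by linear_combination -a * b * P 0 0 * d, by linear_combination -a * b * P 0 1 * d,
      by linear_combination -a * b * P 0 2 * d⟩
  obtain ⟨P, L, δ, hδ, ⟨r1, r2, r3⟩, lp, ll, p0, p1, p2⟩ := norm r lp ll d
  simp only [Li, base, tP, tL, frame, gad, List.forall_mem_append, List.forall_mem_flatMap,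
    List.forall_mem_cons, List.mem_range, List.not_mem_nil, false_imp_iff, implies_true, and_true,
    p0, p1, p2] at r1 r2 r3 lp ll
  obtain ⟨⟨a1, a2, a3, a4, a5, a6, a7, a8, a9, a10, a11, a12⟩, r3⟩ := r3
  obtain ⟨⟨-, -, b3, b4, b5, b6⟩, lp⟩ := lp
  have l0 := r2 0 (by omega)
  have l1 := r2 1 (by omega)
  have l2 := r2 2 (by omega)
  have ef := col (r2 3 (by omega)) a10 a11 a12
  rw [d3] at a1 a2 a4 a5 a7 a8
  rw [nz] at l0 l1 l2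
  simp [hδ] at a1 a2 a4 a5 a7 a8
  have ax : ∀ v : V, v ⬝ᵥ L 0 = 0 → v 0 = 0 := fun v => by simp [a1, a2] at l0; simp [d3, a1, a2, l0]
  have hx : ∀ v : V, v ⬝ᵥ L 1 = 0 → v 1 = 0 := fun v => by simp [a4, a5] at l1; simp [d3, a4, a5, l1]
  have hh : ∀ v : V, v ⬝ᵥ L 2 = 0 → v 2 = 0 := fun v => by simp [a7, a8] at l2; simp [d3, a7, a8, l2]
  have e0 := ax _ a3
  have f1 := hx _ a6
  refine ⟨fun i _ => P (6 + i) 0 / P (6 + i) 2, fun j _ => -L (4 + j) 0 / L (4 + j) 1 * (P 3 1 / P 3 2),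
    fun i => P (6 + i) 1 / P (6 + i) 2 * (P 3 1 / P 3 2),
    fun j => -L (4 + j) 2 / L (4 + j) 1 * (P 3 1 / P 3 2), fun i hi j hj => ?_⟩
  simp only at hi hj
  have ht : n * i + j < m * n := by nlinarith
  have h1 := r3 _ ht
  have h2 := lp _ ht
  have h3 := ll.2 _ ht
  rw [Nat.mul_add_mod, Nat.mod_eq_of_lt hj] at h1 h3
  rw [Nat.mul_add_div (by omega), Nat.div_eq_of_lt hj, add_zero] at h1 h2
  obtain ⟨c1, c2, c3, c4, c5, c6, c7, c8, c9, c10, c11, c12, c13, c14, c15, c16, c17, c18, c19, c20,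
    c21, c22, c23, c24⟩ := h1
  rw [Bool.apply_cond P] at c6 c9
  have k1 : L (4 + n + 6 * (n * i + j)) 1 = 0 := by simpa [hδ] using (d3 _ _).symm.trans c2
  simp only [dotProduct, Fin.sum_univ_one]
  exact gad_s hδ (r1 _ (by omega)) (r1 _ (by omega)) (r1 _ (by omega))
    (r1 _ (by omega)) (r1 _ (by omega)) (by simpa [e0, hδ] using cz.1 b3)
    (by simpa [e0, hδ] using cz.1 b4) (by simpa [f1, hδ] using cz.1 b5)
    (by simpa [f1, hδ] using cz.1 b6) e0 f1 (hh _ a9) ef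
    (fun z => by simpa [z, k1, a7, a8] using cz.1 h3.1) k1
    (fun z => by simpa [z, k1, a1, a2] using cz.1 h3.2.2) c1 c3 c4 h2.1 h2.2.1 h3.2.1
    (hh _ c8) (ax _ c12) (by simpa [ax _ c12, hδ] using cz.1 h2.2.2) (ax _ c13) (hx _ c14) (hh _ c15)
    (col (r2 _ (by omega)) c5 c6 c7) (col (r2 _ (by omega)) c9 c10 c11)
    (col (r2 _ (by omega)) c16 c17 c18) (col (r2 _ (by omega)) c19 c20 c21)
    (col (r2 _ (by omega)) c22 c23 c24)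

end Pool.Agent.H38.Icd
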