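import Pool.Agent.H38.Icd.Lin

/-!
Forcing two points, or two lines, to be different.
-/

namespace Pool.Agent.H38.Icd

open Finset Matrix Pool.Agent.H38.NP

def ext (p : St) (TP TL : List (ℕ × ℕ)) : St := (p.1 + 3 * TL.length, p.2.1 + 3 * TP.length,
  p.2.2 ++ ((List.range (3 * TP.length)).flatMap fun s =>
    [((TP.getD (s / 3) (0, 0)).1, p.2.1 + s), ((TP.getD (s / 3) (0, 0)).2, p.2.1 + s)]) ++
  (List.range (3 * TL.length)).flatMap fun s =>
    [(p.1 + s, (TL.getD (s / 3) (0, 0)).1), (p.1 + s, (TL.getD (s / 3) (0, 0)).2)])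

def Ok (N : ℕ) (T : List (ℕ × ℕ)) : Prop := ∀ e ∈ T, e.1 < N ∧ e.2 < N ∧ e.1 ≠ e.2

def Li (P : ℕ → V) (T : List (ℕ × ℕ)) : Prop := ∀ e ∈ T, P e.1 ⨯₃ P e.2 ≠ 0

theorem gmem {T : List (ℕ × ℕ)} {s} (h : s < 3 * T.length) : T.getD (s / 3) (0, 0) ∈ T := by
  rw [List.getD_eq_getElem _ _ (by omega)]; exact List.getElem_mem _

variable {m n : ℕ} {I TP TL : List (ℕ × ℕ)}

theorem mem_ext {i j} : (i, j) ∈ (ext (m, n, I) TP TL).2.2 ↔ (i, j) ∈ I ∨
    (∃ s < 3 * TP.length, j = n + s ∧ (i = (TP.getD (s / 3) (0, 0)).1 ∨ i = (TP.getD (s / 3) (0, 0)).2)) ∨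
    ∃ s < 3 * TL.length, i = m + s ∧ (j = (TL.getD (s / 3) (0, 0)).1 ∨ j = (TL.getD (s / 3) (0, 0)).2) := by
  simp only [ext, List.mem_append, List.mem_flatMap, List.mem_range, List.mem_cons, Prod.mk.injEq,
    List.not_mem_nil, or_false, or_assoc]
  refine or_congr_right (or_congr ?_ ?_) <;> refine exists_congr fun s => ?_ <;> grind

theorem ext_rg (h : InRange (m, n, I)) (hp : Ok m TP) (hl : Ok n TL) :
    InRange (ext (m, n, I) TP TL) := fun ⟨i, j⟩ he => by
  simp only [ext]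
  rcases mem_ext.1 he with k | ⟨s, hs, k⟩ | ⟨s, hs, k⟩
  · have := h _ k; simp only at this; omega
  · have := hp _ (gmem hs); omega
  · have := hl _ (gmem hs); omega

theorem sumL {M : Type} [AddCommMonoid M] (f : ℕ → M) {N : ℕ} (S : List ℕ) (hS : S.Nodup)
    (h1 : ∀ i ∈ S, i < N) (h2 : ∀ i, f i ≠ 0 → i ∈ S) : ∑ i ∈ range N, f i = (S.map f).sum := by
  rw [← List.sum_toFinset _ hS]
  exact (sum_subset (fun i hi => by simpa using h1 i (by simpa using hi)) fun i _ hi =>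
    of_not_not (mt (h2 i) (by simpa using hi))).symm

theorem sum2 {M : Type} [AddCommMonoid M] (f : ℕ → M) {N a b : ℕ} (hab : a ≠ b) (ha : a < N)
    (hb : b < N) (h : ∀ i, f i ≠ 0 → i = a ∨ i = b) : ∑ i ∈ range N, f i = f a + f b := by
  simpa using sumL f [a, b] (by simpa) (by simp [*]) (by simpa using h)

theorem k23 {M N a b z : ℕ} {P L : ℕ → V} (ha : a < M) (hb : b < M) (hab : a ≠ b) (hz : z + 2 < N)
    (n : P a ≠ 0) (n' : P b ≠ 0) (r : ∀ k < 3, P a ⬝ᵥ L (z + k) = 0) (h : P a ⨯₃ P b = 0) :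
    ∃ f g : ℕ → ℝ, (∀ i, f i ≠ 0 → i = a ∨ i = b) ∧ (∀ j, g j ≠ 0 → ∃ k < 3, j = z + k) ∧
      ∑ i ∈ range M, f i • P i = 0 ∧ ∑ j ∈ range N, g j • L j = 0 ∧ ∃ i j, f i * g j ≠ 0 := by
  obtain ⟨s, t, e, st⟩ : ∃ s t : ℝ, s • P a + t • P b = 0 ∧ s ≠ 0 := by
    have := mt crossProduct_ne_zero_iff_linearIndependent.2 (not_not.2 h)
    rw [LinearIndependent.pair_iff] at this
    push Not at this
    obtain ⟨s, t, e, k⟩ := this
    exact ⟨s, t, e, by rintro rfl; simp [k rfl, n'] at e⟩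
  obtain ⟨c, c0, ec⟩ := exists_vecMul_eq_zero_iff.2 (exists_mulVec_eq_zero_iff.1
    ⟨P a, n, funext fun k => (dotProduct_comm _ _).trans (r k k.2)⟩ :
      (of fun k : Fin 3 => L (z + k)).det = 0)
  refine ⟨fun i => if i = a then s else if i = b then t else 0, fun j => if j = z then c 0 else
    if j = z + 1 then c 1 else if j = z + 2 then c 2 else 0, fun i => by beta_reduce; split_ifs <;> simp [*],
    fun j => ?_, ?_, ?_, ?_⟩
  · beta_reduce; split_ifs with h1 h2 h3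
    exacts [fun _ => ⟨0, by omega, h1⟩, fun _ => ⟨1, by omega, h2⟩, fun _ => ⟨2, by omega, h3⟩,
      by simp]
  · rw [sumL _ [a, b] (by simpa) (by simp [*]) fun i => by beta_reduce; split_ifs <;> simp [*]]
    simpa [hab.symm] using e
  · rw [sumL _ [z, z + 1, z + 2] (by simp) (by simp; omega) fun i => by beta_reduce; split_ifs <;> simp [*]]
    ext k
    simpa [vecMul, d3, add_assoc] using congrFun ec k
  · obtain ⟨k, hk⟩ := Function.ne_iff.1 c0
    exact ⟨a, z + k, by fin_cases k <;> simpa [st] using hk⟩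

theorem ext_s (hp : Ok m TP) (hl : Ok n TL) {P L} (r : Rz (ext (m, n, I) TP TL) P L)
    (s : NoS (ext (m, n, I) TP TL) P L) : Rz (m, n, I) P L ∧ Li P TP ∧ Li L TL := by
  obtain ⟨r1, r2, r3⟩ := r
  simp only [ext] at r1 r2
  have key := fun (f g : ℕ → ℝ) h (h1 : ∑ i ∈ range (m + 3 * TL.length), f i • P i = 0)
    (h2 : ∑ j ∈ range (n + 3 * TP.length), g j • L j = 0) => s (fun i j => f i * g j) h
      (fun i _ => by simp only [mul_smul, ← smul_sum, ext, h2, smul_zero])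
      fun j _ => by simp only [mul_comm (f _), mul_smul, ← smul_sum, ext, h1, smul_zero]
  refine ⟨⟨fun i hi => r1 i (by simp only at hi; omega), fun j hj => r2 j (by simp only at hj; omega),
    fun e he => r3 e (mem_ext.2 (.inl he))⟩, fun e he k => ?_, fun e he k => ?_⟩
  · obtain ⟨c, hc, ec⟩ := List.getElem_of_mem he
    obtain ⟨a1, a2, a3⟩ := hp e he
    have mm : ∀ k < 3, ∀ i, i = e.1 ∨ i = e.2 → (i, n + 3 * c + k) ∈ (ext (m, n, I) TP TL).2.2 :=
      fun k hk i hi => mem_ext.2 (.inr (.inl ⟨3 * c + k, by omega, by omega, by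
        rwa [show (3 * c + k) / 3 = c by omega, List.getD_eq_getElem _ _ hc, ec]⟩))
    obtain ⟨f, g, f1, g1, f2, g2, i, j, ne⟩ := k23 (M := m + 3 * TL.length) (N := n + 3 * TP.length)
      (z := n + 3 * c) (by omega) (by omega) a3 (by omega) (r1 _ (by omega)) (r1 _ (by omega))
      (fun k hk => r3 _ (mm k hk _ (.inl rfl))) k
    refine ne (key f g (fun i j h => ?_) f2 g2 i j)
    obtain ⟨k, hk, rfl⟩ := g1 j (right_ne_zero_of_mul h)
    exact mm k hk _ (f1 i (left_ne_zero_of_mul h))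
  · obtain ⟨c, hc, ec⟩ := List.getElem_of_mem he
    obtain ⟨a1, a2, a3⟩ := hl e he
    have mm : ∀ k < 3, ∀ i, i = e.1 ∨ i = e.2 → (m + 3 * c + k, i) ∈ (ext (m, n, I) TP TL).2.2 :=
      fun k hk i hi => mem_ext.2 (.inr (.inr ⟨3 * c + k, by omega, by omega, by
        rwa [show (3 * c + k) / 3 = c by omega, List.getD_eq_getElem _ _ hc, ec]⟩))
    obtain ⟨f, g, f1, g1, f2, g2, i, j, ne⟩ := k23 (M := n + 3 * TP.length) (N := m + 3 * TL.length)
      (z := m + 3 * c) (by omega) (by omega) a3 (by omega) (r2 _ (by omega)) (r2 _ (by omega))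
      (fun k hk => (dotProduct_comm _ _).trans (r3 _ (mm k hk _ (.inl rfl)))) k
    refine ne (mul_comm (f i) _ ▸ key g f (fun i j h => ?_) g2 f2 j i)
    obtain ⟨k, hk, rfl⟩ := g1 i (left_ne_zero_of_mul h)
    exact mm k hk _ (f1 j (right_ne_zero_of_mul h))

theorem two {a b : V} {s t : ℝ} (h : a ⨯₃ b ≠ 0) (e : s • a + t • b = 0) : s = 0 ∧ t = 0 :=
  LinearIndependent.pair_iff.1 (crossProduct_ne_zero_iff_linearIndependent.1 h) s t e

theorem ext_c (h : InRange (m, n, I)) (hp : Ok m TP) (hl : Ok n TL) {P L} (r : Rz (m, n, I) P L)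
    (s : NoS (m, n, I) P L) (lp : Li P TP) (ll : Li L TL) : ∃ P' L', (∀ i < m, P' i = P i) ∧
      (∀ j < n, L' j = L j) ∧ Rz (ext (m, n, I) TP TL) P' L' ∧ NoS (ext (m, n, I) TP TL) P' L' := by
  obtain ⟨P', p1, p2⟩ : ∃ P' : ℕ → V, (∀ i < m, P' i = P i) ∧ ∀ s, P' (m + s) =
      L (TL.getD (s / 3) (0, 0)).1 ⨯₃ L (TL.getD (s / 3) (0, 0)).2 :=
    ⟨fun i => if i < m then P i else L (TL.getD ((i - m) / 3) (0, 0)).1 ⨯₃
      L (TL.getD ((i - m) / 3) (0, 0)).2, fun i hi => if_pos hi, fun s => by simp⟩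
  obtain ⟨L', l1, l2⟩ : ∃ L' : ℕ → V, (∀ i < n, L' i = L i) ∧ ∀ s, L' (n + s) =
      P (TP.getD (s / 3) (0, 0)).1 ⨯₃ P (TP.getD (s / 3) (0, 0)).2 :=
    ⟨fun i => if i < n then L i else P (TP.getD ((i - n) / 3) (0, 0)).1 ⨯₃
      P (TP.getD ((i - n) / 3) (0, 0)).2, fun i hi => if_pos hi, fun s => by simp⟩
  obtain ⟨r1, r2, r3⟩ := r
  refine ⟨P', L', p1, l1, ⟨fun i hi => ?_, fun j hj => ?_, fun ⟨i, j⟩ he => ?_⟩, fun l a b c => ?_⟩
  · by_cases k : i < m
    · rw [p1 i k]; exact r1 i k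
    · rw [show i = m + (i - m) by omega, p2]; exact ll _ (gmem (by simp only [ext] at hi; omega))
  · by_cases k : j < n
    · rw [l1 j k]; exact r2 j k
    · rw [show j = n + (j - n) by omega, l2]; exact lp _ (gmem (by simp only [ext] at hj; omega))
  · rcases mem_ext.1 he with k | ⟨s, hs, rfl, rfl | rfl⟩ | ⟨s, hs, rfl, rfl | rfl⟩
    · rw [p1 _ (h _ k).1, l1 _ (h _ k).2]; exact r3 _ k
    · rw [p1 _ (hp _ (gmem hs)).1, l2, dot_self_cross]
    · rw [p1 _ (hp _ (gmem hs)).2.1, l2, dot_cross_self]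
    · rw [l1 _ (hl _ (gmem hs)).1, p2, dotProduct_comm, dot_self_cross]
    · rw [l1 _ (hl _ (gmem hs)).2.1, p2, dotProduct_comm, dot_cross_self]
  simp only [mem_ext] at a
  simp only [ext] at b c
  have a' : ∀ i j, l i j ≠ 0 → (i, j) ∈ I := fun i j k => by
    rcases a i j k with e | ⟨s, hs, rfl, e⟩ | ⟨s, hs, rfl, e⟩
    · exact e
    · obtain ⟨a1, a2, a3⟩ := hp _ (gmem hs)
      have := c (n + s) (by omega)
      rw [sum2 _ a3 (by omega) (by omega) fun i k => by
        rcases a i _ (left_ne_zero_of_smul k) with e | ⟨s', hs', e, e'⟩ | ⟨s', hs', -, e'⟩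
        · have := h _ e; simp only at this; omega
        · obtain rfl : s = s' := by omega
          exact e'
        · have := hl _ (gmem hs'); omega] at this
      rw [p1 _ a1, p1 _ a2] at this
      have := two (lp _ (gmem hs)) this
      rcases e with rfl | rfl
      exacts [(k this.1).elim, (k this.2).elim]
    · obtain ⟨a1, a2, a3⟩ := hl _ (gmem hs)
      have := b (m + s) (by omega)
      rw [sum2 _ a3 (by omega) (by omega) fun i k => by
        rcases a _ i (left_ne_zero_of_smul k) with e | ⟨s', hs', -, e'⟩ | ⟨s', hs', e, e'⟩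
        · have := h _ e; simp only at this; omega
        · have := hp _ (gmem hs'); omega
        · obtain rfl : s = s' := by omega
          exact e'] at this
      rw [l1 _ a1, l1 _ a2] at this
      have := two (ll _ (gmem hs)) this
      rcases e with rfl | rfl
      exacts [(k this.1).elim, (k this.2).elim]
  refine s l a' (fun i hi => ?_) fun j hj => ?_
  · rw [← b i (by simp only at hi; omega), sum_range_add, sum_eq_zero (s := range (3 * TP.length))
      fun j _ => by rw [of_not_not (mt (a' _ _) fun k => by simpa using (h _ k).2), zero_smul],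
      add_zero]
    exact sum_congr rfl fun j hj => by rw [l1 j (mem_range.1 hj)]
  · rw [← c j (by simp only at hj; omega), sum_range_add, sum_eq_zero (s := range (3 * TL.length))
      fun j _ => by rw [of_not_not (mt (a' _ _) fun k => by simpa using (h _ k).1), zero_smul],
      add_zero]
    exact sum_congr rfl fun j hj => by rw [p1 j (mem_range.1 hj)]

end Pool.Agent.H38.Icd
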